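import Pool.Agent.H24.CL.TargetsK

/-!
# Row GC of the board clk (helper55): a good chain has few points in every orbit
-/

set_option autoImplicit false

open Finset MeasureTheory

namespace Pool.Agent.H55.CLK

open Pool.Agent.H24.CL

/-- representatives modulo a subgroup -/
theorem reps {k : ℕ} (S : AddSubgroup (X k)) (W : Set (X k)) (B : ℝ) (hB : 0 ≤ B) (hC : Cnt S W B)
    (Y : Finset (X k)) (hY : ∀ y ∈ Y, y ∈ W) :
    ∃ Y1 : Finset (X k), Y1 ⊆ Y ∧ (∀ y ∈ Y1, ∀ y' ∈ Y1, y - y' ∈ S → y = y') ∧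
      (Y.card : ℝ) ≤ B * (Y1.card : ℝ) := by
  classical
  let π : X k → X k ⧸ S := fun y => (y : X k ⧸ S)
  have hπ : ∀ y y' : X k, π y = π y' → y - y' ∈ S := by
    intro y y' h
    have h1 : -y' + y ∈ S := QuotientAddGroup.eq.1 h.symm
    have h2 : y - y' = -y' + y := by abel
    rw [h2]
    exact h1
  have hπ' : ∀ y y' : X k, y - y' ∈ S → π y = π y' := by
    intro y y' h
    have h2 : y - y' = -y' + y := by abel
    rw [h2] at h
    exact (QuotientAddGroup.eq.2 h).symm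
  let g : (X k ⧸ S) → X k := fun c => if h : ∃ y ∈ Y, π y = c then h.choose else 0
  have hg : ∀ c ∈ Y.image π, g c ∈ Y ∧ π (g c) = c := by
    intro c hc
    obtain ⟨y, hy, hyc⟩ := Finset.mem_image.1 hc
    have h : ∃ y ∈ Y, π y = c := ⟨y, hy, hyc⟩
    have h2 : g c = h.choose := dif_pos h
    rw [h2]
    exact h.choose_spec
  refine ⟨(Y.image π).image g, ?_, ?_, ?_⟩
  · intro y hy
    obtain ⟨c, hc, rfl⟩ := Finset.mem_image.1 hy
    exact (hg c hc).1
  · intro y hy y' hy' h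
    obtain ⟨c, hc, rfl⟩ := Finset.mem_image.1 hy
    obtain ⟨c', hc', rfl⟩ := Finset.mem_image.1 hy'
    have h1 := hπ' _ _ h
    rw [(hg c hc).2, (hg c' hc').2] at h1
    rw [h1]
  · have hinj : ((Y.image π).image g).card = (Y.image π).card := by
      refine Finset.card_image_of_injOn ?_
      intro c hc c' hc' h
      have h1 := (hg c hc).2
      have h2 := (hg c' hc').2
      rw [← h1, ← h2]
      exact congrArg π h
    have hcard : Y.card ≤ ⌊B⌋₊ * (Y.image π).card := by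
      refine Finset.card_le_mul_card_image Y ⌊B⌋₊ ?_
      intro c _
      refine Nat.le_floor ?_
      refine hC (Y.filter fun y => π y = c) ?_ ?_
      · intro y hy
        exact hY y (Finset.mem_filter.1 hy).1
      · intro y hy y' hy'
        refine hπ _ _ ?_
        rw [(Finset.mem_filter.1 hy).2, (Finset.mem_filter.1 hy').2]
    rw [hinj]
    calc (Y.card : ℝ) ≤ ((⌊B⌋₊ * (Y.image π).card : ℕ) : ℝ) := by exact_mod_cast hcard
      _ = (⌊B⌋₊ : ℝ) * ((Y.image π).card : ℝ) := by push_cast; ring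
      _ ≤ B * ((Y.image π).card : ℝ) :=
        mul_le_mul_of_nonneg_right (Nat.floor_le hB) (Nat.cast_nonneg _)

theorem pf_GC (hFR : TK_FR) (hLA : T_LA) (hPH : T_PH) (_ : T_TO) (_ : TK_HM) : TK_GC := by
  intro k c₁ ε T m hk hc hc1 hε hεc hT hm
  obtain ⟨C, hC1, hFR⟩ := hFR k hk
  refine ⟨max (4 * k ^ 2 + 1) ⌈(C * (Nat.factorial k : ℝ)) ^ (1 / c₁)⌉₊, ?_⟩
  intro q L t₀ W A n hq hprime hL ht₀ hchain hgr Y hYW hYH
  have hqk : 4 * k ^ 2 + 1 ≤ q := le_trans (le_max_left _ _) hq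
  have hkq : k < q := by nlinarith
  have hq1 : (1 : ℝ) ≤ q := by exact_mod_cast hprime.one_lt.le
  have hq0 : (0 : ℝ) < q := by linarith
  have hfac1 : (1 : ℝ) ≤ (Nat.factorial k : ℝ) := by exact_mod_cast Nat.factorial_pos k
  have hCf : (0 : ℝ) < C * (Nat.factorial k : ℝ) := by positivity
  have hbig : C * (Nat.factorial k : ℝ) ≤ (q : ℝ) ^ c₁ := by
    have h1 : (C * (Nat.factorial k : ℝ)) ^ (1 / c₁) ≤ q :=
      le_trans (Nat.le_ceil _) (by exact_mod_cast le_trans (le_max_right _ _) hq)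
    have h2 : ((C * (Nat.factorial k : ℝ)) ^ (1 / c₁)) ^ c₁ ≤ (q : ℝ) ^ c₁ :=
      Real.rpow_le_rpow (by positivity) h1 (by positivity)
    rwa [← Real.rpow_mul hCf.le, one_div_mul_cancel (by positivity), Real.rpow_one] at h2
  rcases Y.eq_empty_or_nonempty with rfl | ⟨a, ha⟩
  · rw [Finset.card_empty, Nat.cast_zero]
    positivity
  set ρ : ℝ := (q : ℝ) ^ ε with hρ
  have hρ1 : 1 ≤ ρ := Real.one_le_rpow hq1 hε.le
  have hρ0 : 0 < ρ := by linarith
  have hLAj := hLA k q m L T ρ t₀ W A n (by omega) hprime.two_le hL hT hρ1 ht₀ hchain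
  have hPHj := hPH k q m L T ρ t₀ W A n (by omega) hprime hkq hL hT hρ1 ht₀ hchain
  have hne : ∀ j < m, (W j).Nonempty → (W (j + 1)).Nonempty := by
    rintro j hj ⟨w, hw⟩
    have h1 := hchain.card_lo j hj w hw
    have h2 := hchain.one_le j hj
    have h3 : (1 : ℝ) ≤ ((pos q (W (j + 1)) w).card : ℝ) := le_trans h2 h1
    have h4 : 0 < (pos q (W (j + 1)) w).card := by
      have : (0 : ℝ) < ((pos q (W (j + 1)) w).card : ℝ) := by linarith
      exact_mod_cast this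
    obtain ⟨b, hb⟩ := Finset.card_pos.1 h4
    simp only [pos, Finset.mem_filter] at hb
    exact ⟨_, hb.2⟩
  have hall : ∀ j, j < m → (W j).Nonempty := by
    intro j
    induction j with
    | zero => intro _; exact ⟨a, hYW a ha⟩
    | succ j ih => intro hj; exact hne j (by omega) (ih (by omega))
  set G : ℕ → ℝ := fun j => Gr q T ρ A n j with hG
  have hG1 : ∀ j, j < m → 1 ≤ G j := fun j hj => ((hLAj j hj).2.2 (hall j hj)).1
  have hqG : ∀ j, j < m → (q : ℝ) ≤ ρ * n j * G j := fun j hj => ((hLAj j hj).2.2 (hall j hj)).2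
  have hGc : ∀ j, j < k → G j ≤ (q : ℝ) ^ c₁ := fun j hj => hgr j hj
  have hn1 : ∀ j, j < m → 1 ≤ n j := fun j hj => hchain.one_le j hj
  have hr : ∀ j, j < k → (q : ℝ) / n j ≤ (q : ℝ) ^ (2 * c₁) := by
    intro j hj
    have hjm : j < m := by omega
    have hn0 : 0 < n j := by linarith [hn1 j hjm]
    rw [div_le_iff₀ hn0]
    have h1 : ρ ≤ (q : ℝ) ^ c₁ := Real.rpow_le_rpow_of_exponent_le hq1 hεc
    have h2 : (q : ℝ) ^ (2 * c₁) = (q : ℝ) ^ c₁ * (q : ℝ) ^ c₁ := by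
      rw [← Real.rpow_add hq0]
      ring_nf
    have hG0 : 0 ≤ G j := by linarith [hG1 j hjm]
    calc (q : ℝ) ≤ ρ * n j * G j := hqG j hjm
      _ = ρ * G j * n j := by ring
      _ ≤ (q : ℝ) ^ c₁ * (q : ℝ) ^ c₁ * n j := by
        refine mul_le_mul_of_nonneg_right ?_ hn0.le
        exact mul_le_mul h1 (hGc j hj) hG0 (by positivity)
      _ = (q : ℝ) ^ (2 * c₁) * n j := by rw [h2]
  have hn00 : 0 < n 0 := by linarith [hn1 0 (by omega)]
  have hβ : 2 * (k : ℝ) ≤ n 0 := by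
    have h5 : (q : ℝ) / n 0 ≤ (q : ℝ) ^ (1 / 2 : ℝ) :=
      le_trans (hr 0 (by omega)) (Real.rpow_le_rpow_of_exponent_le hq1 (by linarith))
    rw [div_le_iff₀ hn00, ← Real.sqrt_eq_rpow] at h5
    have h6 : 2 * (k : ℝ) ≤ Real.sqrt q := by
      refine Real.le_sqrt_of_sq_le ?_
      have : ((4 * k ^ 2 + 1 : ℕ) : ℝ) ≤ q := by exact_mod_cast hqk
      push_cast at this
      nlinarith
    have h7 : Real.sqrt q * Real.sqrt q = q := Real.mul_self_sqrt hq0.le
    have h8 : 0 < Real.sqrt q := Real.sqrt_pos.2 hq0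
    have h9 : Real.sqrt q * Real.sqrt q ≤ Real.sqrt q * n 0 := by rw [h7]; exact h5
    have h10 : Real.sqrt q ≤ n 0 := le_of_mul_le_mul_left h9 h8
    linarith
  set Q : ℝ := (q : ℝ) ^ c₁ with hQ
  have hQ1 : 1 ≤ Q := Real.one_le_rpow hq1 hc.le
  have hQ0 : 0 < Q := by linarith
  have hQ2 : (q : ℝ) ^ (2 * c₁) = Q ^ 2 := by
    rw [hQ, ← Real.rpow_natCast, ← Real.rpow_mul hq0.le]
    congr 1
    push_cast
    ring
  have hG00 : 0 ≤ G 0 := by linarith [hG1 0 (by omega)]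
  obtain ⟨Y1, hY1, hinj, hcard⟩ := reps (H k q 1) (W 0) ((Nat.factorial k : ℝ) * G 0 ^ k)
    (by positivity) (hPHj 0 (by omega)) Y hYW
  have hmain := hFR q W n G (n 0) Y1 hprime hkq
    (fun l _ hl => ⟨hn1 l (by omega), (hLAj l (by omega)).2.1⟩)
    (fun l _ hl => ⟨hG1 l (by omega), (hLAj l (by omega)).1⟩) hβ
    (fun y hy => (hLAj 0 (by omega)).2.1 y (hYW y (hY1 hy)))
    (fun y hy y' hy' => hYH y (hY1 hy) y' (hY1 hy')) hinj
  have hp1 : ∏ l ∈ Icc 1 (k - 2), ((q : ℝ) / n l) ^ k ≤ ∏ _l ∈ Icc 1 (k - 2), (Q ^ 2) ^ k := by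
    refine Finset.prod_le_prod ?_ ?_
    · intro l hl
      have hl' := Finset.mem_Icc.1 hl
      have := hn1 l (by omega)
      positivity
    · intro l hl
      have hl' := Finset.mem_Icc.1 hl
      have h1 := hn1 l (by omega)
      refine pow_le_pow_left₀ (by positivity) ?_ k
      rw [← hQ2]
      exact hr l (by omega)
  have hp2 : ∏ l ∈ Icc 1 (k - 1), G l ^ k ≤ ∏ _l ∈ Icc 1 (k - 1), Q ^ k := by
    refine Finset.prod_le_prod ?_ ?_
    · intro l hl
      have hl' := Finset.mem_Icc.1 hl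
      have := hG1 l (by omega)
      positivity
    · intro l hl
      have hl' := Finset.mem_Icc.1 hl
      have h1 := hG1 l (by omega)
      exact pow_le_pow_left₀ (by linarith) (hGc l (by omega)) k
  rw [Finset.prod_const, Nat.card_Icc] at hp1 hp2
  have hp1' : 0 ≤ ∏ l ∈ Icc 1 (k - 2), ((q : ℝ) / n l) ^ k := by
    refine Finset.prod_nonneg ?_
    intro l hl
    have hl' := Finset.mem_Icc.1 hl
    have := hn1 l (by omega)
    positivity
  have hp2' : 0 ≤ ∏ l ∈ Icc 1 (k - 1), G l ^ k := by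
    refine Finset.prod_nonneg ?_
    intro l hl
    have hl' := Finset.mem_Icc.1 hl
    have := hG1 l (by omega)
    positivity
  have h0 : ((q : ℝ) / n 0) ^ k ≤ (Q ^ 2) ^ k := by
    refine pow_le_pow_left₀ (by positivity) ?_ k
    rw [← hQ2]
    exact hr 0 (by omega)
  have hY1c : (Y1.card : ℝ) ≤ C * (Q ^ 2) ^ k * ((Q ^ 2) ^ k) ^ (k - 2 + 1 - 1) *
      (Q ^ k) ^ (k - 1 + 1 - 1) := by
    refine hmain.trans ?_
    refine mul_le_mul (mul_le_mul (mul_le_mul_of_nonneg_left h0 (by linarith)) hp1 hp1'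
      (by positivity)) hp2 hp2' (by positivity)
  have hgf : G 0 ^ k ≤ Q ^ k := pow_le_pow_left₀ hG00 (hGc 0 (by omega)) k
  calc (Y.card : ℝ) ≤ (Nat.factorial k : ℝ) * G 0 ^ k * (Y1.card : ℝ) := hcard
    _ ≤ (Nat.factorial k : ℝ) * Q ^ k * (C * (Q ^ 2) ^ k * ((Q ^ 2) ^ k) ^ (k - 2 + 1 - 1) *
      (Q ^ k) ^ (k - 1 + 1 - 1)) := by
        refine mul_le_mul (mul_le_mul_of_nonneg_left hgf (by positivity)) hY1c
          (Nat.cast_nonneg _) (by positivity)
    _ = (C * (Nat.factorial k : ℝ)) * Q ^ (k + 2 * k + 2 * k * (k - 2) + k * (k - 1)) := by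
        have e1 : k - 2 + 1 - 1 = k - 2 := by omega
        have e2 : k - 1 + 1 - 1 = k - 1 := by omega
        rw [e1, e2, pow_add, pow_add, pow_add, ← pow_mul, ← pow_mul, ← pow_mul]
        ring
    _ ≤ Q * Q ^ (k + 2 * k + 2 * k * (k - 2) + k * (k - 1)) :=
        mul_le_mul_of_nonneg_right hbig (by positivity)
    _ = Q ^ ((k + 2 * k + 2 * k * (k - 2) + k * (k - 1)) + 1) := (pow_succ' Q _).symm
    _ ≤ Q ^ (4 * k ^ 2) := by
        refine pow_le_pow_right₀ hQ1 ?_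
        obtain ⟨d, rfl⟩ : ∃ d, k = d + 3 := ⟨k - 3, by omega⟩
        have e1 : d + 3 - 2 = d + 1 := by omega
        have e2 : d + 3 - 1 = d + 2 := by omega
        rw [e1, e2]
        nlinarith
    _ = (q : ℝ) ^ (4 * (k : ℝ) ^ 2 * c₁) := by
        rw [hQ, ← Real.rpow_natCast, ← Real.rpow_mul hq0.le]
        congr 1
        push_cast
        ring

end Pool.Agent.H55.CLK
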